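import Mathlib

namespace Pool.Agent.Results.MP_52e7c8_nt.NoDarboux
open Set

/-- Upper quasi-density on `ℤ`. -/
structure IsUQD (μ : Set ℤ → ℝ) : Prop where
  whole : μ univ = 1
  subadd : ∀ X Y, μ (X ∪ Y) ≤ μ X + μ Y
  affine : ∀ X, ∀ k h : ℕ, 0 < k → 0 < h → μ ((fun x : ℤ => k * x + h) '' X) = μ X / k
  le_one : ∀ X, μ X ≤ 1

abbrev J := {p : ℚ × ℚ // 0 < p.1}

def pt (j : J) (q : ℚ) : ℚ := (q - j.1.2) / j.1.1

def Zs : Set ℚ := range Int.cast

def j0 : J := ⟨(1, 0), one_pos⟩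

lemma pt0 (q : ℚ) : pt j0 q = q := by simp [pt, j0]

open Classical in
noncomputable def E (q : ℚ) (ξ : J → ℝ) : (J × Bool →₀ ℝ) →ₗ[ℝ] ℝ :=
  Finsupp.linearCombination ℝ fun i => if pt i.1 q ∈ Zs then (if i.2 then ξ i.1 else 1) else 0

noncomputable def cost : (J × Bool →₀ ℝ) →ₗ[ℝ] ℝ :=
  Finsupp.linearCombination ℝ fun i => (if i.2 then 1 / 2 else 1) / (i.1.1.1 : ℝ)

lemma exM (s : Finset J) : ∃ M : ℕ, 0 < M ∧ ∀ j ∈ s, ∃ L : ℕ, (M : ℚ) = j.1.1 * L := by
  refine ⟨∏ j ∈ s, j.1.1.num.toNat, Finset.prod_pos fun j _ => by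
    have := Rat.num_pos.2 j.2; omega, fun j hj => ?_⟩
  obtain ⟨c, hc⟩ := Finset.dvd_prod_of_mem (fun j : J => j.1.1.num.toNat) hj
  refine ⟨j.1.1.den * c, ?_⟩
  have h1 : ((j.1.1.num.toNat : ℕ) : ℚ) = j.1.1.num := by
    exact_mod_cast Int.toNat_of_nonneg (Rat.num_pos.2 j.2).le
  rw [hc]; push_cast; rw [h1, ← mul_assoc, Rat.mul_den_eq_num]

lemma exD (s : Finset J) : ∃ D : ℕ, 0 < D ∧ ∀ j ∈ s, ∃ A B : ℤ, (A : ℚ) = D * j.1.1 ∧
    (B : ℚ) = D * j.1.2 := by
  refine ⟨∏ j ∈ s, (j.1.1.den * j.1.2.den), Finset.prod_pos fun j _ => by positivity,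
    fun j hj => ?_⟩
  obtain ⟨c, hc⟩ := Finset.dvd_prod_of_mem (fun j : J => j.1.1.den * j.1.2.den) hj
  refine ⟨j.1.1.num * j.1.2.den * c, j.1.2.num * j.1.1.den * c, ?_, ?_⟩ <;> rw [hc] <;> push_cast
  · rw [← Rat.mul_den_eq_num]; ring
  · rw [← Rat.mul_den_eq_num j.1.2]; ring

lemma key (F : J × Bool →₀ ℝ) (h : ∀ q, 0 ≤ E q (fun _ => 1 / 2) F) :
    ∃ m : ℤ, E m (fun _ => 1 / 2) F ≤ cost F := by
  classical
  obtain ⟨M, hM, hM'⟩ := exM (F.support.image Prod.fst)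
  obtain ⟨D, hD, hD'⟩ := exD (F.support.image Prod.fst)
  have hDq : (0 : ℚ) < D := by exact_mod_cast hD
  have h1 : ∑ n ∈ Finset.Ico (0 : ℤ) (D * M), E (n / D) (fun _ => 1 / 2) F = M * cost F := by
    simp only [E, cost, Finsupp.linearCombination_apply, Finsupp.sum, smul_eq_mul]
    rw [Finset.sum_comm, Finset.mul_sum]
    refine Finset.sum_congr rfl fun i hi => ?_
    obtain ⟨L, hL⟩ := hM' _ (Finset.mem_image_of_mem _ hi)
    obtain ⟨A, B, hA, hB⟩ := hD' _ (Finset.mem_image_of_mem _ hi)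
    have ha := i.1.2
    have hA0 : (0 : ℚ) < A := by rw [hA]; positivity
    have hA1 : 0 < A := by exact_mod_cast hA0
    have e : ∀ n : ℤ, pt i.1 (n / D) ∈ Zs ↔ n ≡ B [ZMOD A] := fun n => by
      have : pt i.1 (n / D) = (n - B) / A := by rw [pt, hA, hB]; field_simp
      rw [this, Int.modEq_comm, Int.modEq_iff_dvd]
      constructor
      · rintro ⟨z, hz⟩
        refine ⟨z, ?_⟩
        rw [eq_div_iff hA0.ne'] at hz
        exact_mod_cast (by rw [← hz]; ring : (n : ℚ) - B = A * z)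
      · rintro ⟨z, hz⟩
        refine ⟨z, ?_⟩
        rw [eq_div_iff hA0.ne']
        exact_mod_cast (by rw [hz]; ring : z * A = n - B)
    have hc : ((Finset.Ico (0 : ℤ) (D * M)).filter fun n => n ≡ B [ZMOD A]).card = L := by
      have := Int.Ico_filter_modEq_card 0 (D * M) hA1 B
      have e2 : (((D * M : ℤ) : ℚ) - B) / A = (((0 : ℤ) : ℚ) - B) / A + L := by
        push_cast; rw [hL, ← mul_assoc, ← hA]; field_simp; ring
      rw [e2, Int.ceil_add_natCast] at this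
      omega
    simp only [e]
    rw [← Finset.mul_sum, ← Finset.sum_filter, Finset.sum_const, hc, nsmul_eq_mul]
    have hL' : (M : ℝ) = i.1.1.1 * L := by exact_mod_cast hL
    have ha' : (0 : ℝ) < i.1.1.1 := by exact_mod_cast ha
    rw [hL']
    field_simp
  have h2 : ∑ m ∈ Finset.Ico (0 : ℤ) M, E m (fun _ => 1 / 2) F ≤ M * cost F := by
    rw [← h1]
    have hinj : Set.InjOn (fun m : ℤ => D * m) (Finset.Ico (0 : ℤ) M) := fun a _ b _ e =>
      mul_left_cancel₀ (by omega) e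
    have := Finset.sum_image (f := fun n : ℤ => E (n / D) (fun _ => 1 / 2) F) hinj
    simp only [Int.cast_mul, Int.cast_natCast, mul_div_cancel_left₀ _ hDq.ne'] at this
    rw [← this]
    refine Finset.sum_le_sum_of_subset_of_nonneg (fun n hn => ?_) fun n _ _ => h _
    obtain ⟨m, hm, rfl⟩ := Finset.mem_image.1 hn
    simp only [Finset.mem_Ico] at hm ⊢
    exact ⟨by have := hm.1; positivity, by have := hm.2; gcongr⟩
  by_contra hc
  push Not at hc
  have := Finset.sum_lt_sum_of_nonempty (s := Finset.Ico (0 : ℤ) M) ⟨0, by simpa using hM⟩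
    fun m _ => hc m
  simp at this
  linarith

def Gen (X : Set ℚ) : Prop := X ⊆ Zs ∧ ∀ (s t : Finset J) (q : ℚ), ∃ x, ∀ j ∈ s,
  (pt j x ∈ Zs ↔ pt j q ∈ Zs) ∧ (pt j q ∈ Zs → (pt j x ∈ X ↔ j ∈ t))

lemma step (s : Finset J) (q B : ℚ) : ∃ x B', B ≤ B' ∧ (∀ j ∈ s, (pt j x ∈ Zs ↔ pt j q ∈ Zs) ∧
    B < pt j x ∧ pt j x ≤ B') ∧ ∀ i ∈ s, ∀ j ∈ s, pt i x = pt j x → i = j := by
  classical
  obtain ⟨M, hM, hM'⟩ := exM s
  obtain ⟨C, hC⟩ := ((s.image fun j : J => j.1.1 * B + j.1.2) ∪ ((s ×ˢ s).image fun p : J × J =>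
    (p.2.1.1 * p.1.1.2 - p.1.1.1 * p.2.1.2) / (p.2.1.1 - p.1.1.1))).bddAbove
  obtain ⟨n, hn⟩ := exists_nat_gt (max (C - q) 0)
  have hx : C < q + M * n := by
    have h1 : (1 : ℚ) ≤ M := by exact_mod_cast hM
    have := le_max_left (C - q) 0
    have := le_max_right (C - q) 0
    nlinarith
  obtain ⟨B', hB'⟩ := (insert B (s.image fun j => pt j (q + M * n))).bddAbove
  refine ⟨q + M * n, B', hB' (by simp), fun j hj => ⟨?_, ?_, hB' ?_⟩, fun i hi j hj e => ?_⟩
  · obtain ⟨L, hL⟩ := hM' j hj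
    have : pt j (q + M * n) = pt j q + (L * n : ℤ) := by
      have := j.2
      rw [pt, pt, hL]; push_cast; field_simp; ring
    rw [this]
    exact ⟨fun ⟨z, hz⟩ => ⟨z - L * n, by push_cast at hz ⊢; linarith⟩,
      fun ⟨z, hz⟩ => ⟨z + L * n, by rw [← hz]; push_cast; ring⟩⟩
  · have : j.1.1 * B + j.1.2 ≤ C := hC (by
      simp only [Finset.coe_union, Finset.coe_image]; exact Or.inl ⟨j, hj, rfl⟩)
    rw [pt, lt_div_iff₀ j.2]; linarith
  · simp only [Finset.coe_insert, Finset.coe_image]; exact Or.inr ⟨j, hj, rfl⟩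
  · rw [pt, pt, div_eq_div_iff i.2.ne' j.2.ne'] at e
    by_cases ha : i.1.1 = j.1.1
    · rw [ha] at e
      have := mul_right_cancel₀ j.2.ne' e
      exact Subtype.ext (Prod.ext ha (by linarith))
    · have : (j.1.1 * i.1.2 - i.1.1 * j.1.2) / (j.1.1 - i.1.1) ≤ C := hC (by
        simp only [Finset.coe_union, Finset.coe_image]
        exact Or.inr ⟨(i, j), by simp [hi, hj], rfl⟩)
      have h2 : (j.1.1 * i.1.2 - i.1.1 * j.1.2) / (j.1.1 - i.1.1) = q + M * n := by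
        rw [div_eq_iff (sub_ne_zero.2 (Ne.symm ha))]; linarith
      linarith

lemma exGen : ∃ X, Gen X := by
  obtain ⟨T, hT⟩ := exists_surjective_nat (Finset J × Finset J × ℚ)
  choose x g h1 h2 h3 using step
  let B : ℕ → ℚ := fun n => Nat.rec 0 (fun n b => g (T n).1 (T n).2.2 b) n
  have hB : Monotone B := monotone_nat_of_le_succ fun n => h1 _ _ _
  refine ⟨{p | p ∈ Zs ∧ ∃ n, ∃ j ∈ (T n).1, j ∈ (T n).2.1 ∧ p = pt j (x (T n).1 (T n).2.2 (B n))},
    fun p hp => hp.1, fun s t q => ?_⟩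
  obtain ⟨n, hn⟩ := hT (s, t, q)
  have e1 : (T n).1 = s := by rw [hn]
  have e2 : (T n).2.1 = t := by rw [hn]
  have e3 : (T n).2.2 = q := by rw [hn]
  subst e1 e2 e3
  refine ⟨x (T n).1 (T n).2.2 (B n), fun j hj => ⟨(h2 _ _ _ j hj).1, fun hz => ⟨?_, fun h =>
    ⟨(h2 _ _ _ j hj).1.2 hz, n, j, hj, h, rfl⟩⟩⟩⟩
  rintro ⟨-, m, i, hi, hi', e⟩
  have a1 := (h2 _ (T n).2.2 (B n) j hj).2
  have a2 := (h2 _ (T m).2.2 (B m) i hi).2
  rcases lt_trichotomy m n with h | rfl | h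
  · have : g _ _ (B m) ≤ B n := hB (show m + 1 ≤ n from h)
    linarith [a1.1, a2.2]
  · rw [h3 _ _ _ j hj i hi e]; exact hi'
  · have : g _ _ (B n) ≤ B m := hB (show n + 1 ≤ m from h)
    linarith [a1.2, a2.1]

open Classical in
noncomputable def ch (t : Set J) : J → ℝ := fun j => if j ∈ t then 1 else 0

noncomputable def ev (X : Set ℚ) (q : ℚ) : (J × Bool →₀ ℝ) →ₗ[ℝ] ℝ := E q (ch {j | pt j q ∈ X})

lemma realize {X : Set ℚ} (hX : Gen X) (F G : J × Bool →₀ ℝ) (t : Finset J) (q : ℚ) :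
    ∃ x, (x ∈ Zs ↔ q ∈ Zs) ∧ ev X x F = E q (ch t) F ∧ ev X x G = E q (ch t) G := by
  classical
  obtain ⟨x, hx⟩ := hX.2 (insert j0 ((F.support ∪ G.support).image Prod.fst)) t q
  have : ∀ K : J × Bool →₀ ℝ, K.support ⊆ F.support ∪ G.support → ev X x K = E q (ch t) K := by
    intro K hK
    simp only [ev, E, Finsupp.linearCombination_apply, Finsupp.sum]
    refine Finset.sum_congr rfl fun i hi => ?_
    obtain ⟨h1, h2⟩ := hx i.1 (Finset.mem_insert_of_mem (Finset.mem_image_of_mem _ (hK hi)))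
    by_cases h : pt i.1 q ∈ Zs
    · simp [h, h1, ch, h2 h]
    · simp [h, h1]
  exact ⟨x, by simpa [pt0] using (hx j0 (by simp)).1, this F Finset.subset_union_left,
    this G Finset.subset_union_right⟩

lemma half (F : J × Bool →₀ ℝ) (t : Finset J) (q : ℚ) : ∃ t' : Finset J,
    E q (ch t) F + E q (ch t') F = 2 * E q (fun _ => 1 / 2) F := by
  classical
  refine ⟨F.support.image Prod.fst \ t, ?_⟩
  simp only [E, Finsupp.linearCombination_apply, Finsupp.sum, smul_eq_mul]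
  rw [← Finset.sum_add_distrib, Finset.mul_sum]
  refine Finset.sum_congr rfl fun i hi => ?_
  have h1 : i.1 ∈ F.support.image Prod.fst := Finset.mem_image_of_mem _ hi
  by_cases h : pt i.1 q ∈ Zs <;> by_cases h2 : i.1 ∈ t <;> cases h3 : i.2 <;>
    simp only [h, h2, ch, Finset.coe_sdiff, mem_sdiff, Finset.mem_coe, h1] <;> simp <;> ring

lemma flip (F : J × Bool →₀ ℝ) (t : Finset J) (ht : j0 ∉ t) (m : ℤ) :
    E m (ch (insert j0 t)) F = E m (ch t) F + F (j0, true) := by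
  classical
  induction F using Finsupp.induction_linear with
  | zero => simp
  | add f g h1 h2 => rw [map_add, map_add, h1, h2, Finsupp.add_apply]; ring
  | single i c =>
    obtain ⟨j, b⟩ := i
    have hm : (m : ℚ) ∈ Zs := ⟨m, rfl⟩
    by_cases h : j = j0
    · subst h; cases b <;> simp [E, ch, ht, pt0, hm]
    · simp [E, ch, h]

lemma low {X : Set ℚ} (hX : Gen X) (F : J × Bool →₀ ℝ) (h : ∀ q, 0 ≤ ev X q F) :
    ∃ m : ℤ, (∀ t : Finset J, E m (ch t) F ≤ 2 * cost F) ∧ |F (j0, true)| ≤ 2 * cost F := by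
  classical
  have h0 : ∀ q (t : Finset J), 0 ≤ E q (ch t) F := fun q t => by
    obtain ⟨x, -, e, -⟩ := realize hX F F t q
    exact e ▸ h x
  obtain ⟨m, hm⟩ := key F fun q => by
    obtain ⟨t', e⟩ := half F ∅ q
    linarith [h0 q ∅, h0 q t']
  have h1 : ∀ t : Finset J, E m (ch t) F ≤ 2 * cost F := fun t => by
    obtain ⟨t', e⟩ := half F t m
    linarith [h0 m t']
  have h2 := flip F ∅ (by simp) m
  have h3 := h1 {j0}
  have h4 := h0 m {j0}
  rw [Finset.coe_singleton, ← insert_empty_eq, ← Finset.coe_empty] at h3 h4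
  exact ⟨m, h1, abs_le.2 ⟨by linarith [h1 ∅], by linarith [h0 m ∅]⟩⟩

def V (X Y : Set ℚ) : Set ℝ := {c | ∃ F, (∀ q, Y.indicator 1 q ≤ ev X q F) ∧ c = cost F}

lemma ind0 (Y : Set ℚ) (q : ℚ) : (0 : ℝ) ≤ Y.indicator 1 q := indicator_nonneg (by simp) q

lemma bdd {X : Set ℚ} (hX : Gen X) (Y : Set ℚ) : BddBelow (V X Y) := ⟨0, by
  rintro _ ⟨F, h, rfl⟩
  obtain ⟨-, -, h1⟩ := low hX F fun q => (ind0 Y q).trans (h q)
  linarith [abs_nonneg (F (j0, true))]⟩

lemma evZ (X : Set ℚ) (q : ℚ) : ev X q (Finsupp.single (j0, false) 1) = Zs.indicator 1 q := by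
  classical simp [ev, E, pt0, indicator_apply]

lemma evX {X : Set ℚ} (hX : Gen X) (q : ℚ) :
    ev X q (Finsupp.single (j0, true) 1) = X.indicator 1 q := by
  classical
  by_cases h : q ∈ X
  · simp [ev, E, pt0, ch, h, hX.1 h]
  · simp [ev, E, pt0, ch, h]

lemma cZ : cost (Finsupp.single (j0, false) 1) = 1 := by simp [cost, j0]
lemma cX : cost (Finsupp.single (j0, true) 1) = 1 / 2 := by simp [cost, j0]

lemma one_mem (X : Set ℚ) {Y : Set ℚ} (h : Y ⊆ Zs) : (1 : ℝ) ∈ V X Y :=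
  ⟨_, fun q => by rw [evZ]; exact indicator_le_indicator_of_subset h (by simp) q, cZ.symm⟩

lemma V_aff (X Y : Set ℚ) (k h : ℚ) (hk : 0 < k) {c : ℝ} (hc : c ∈ V X Y) :
    c / k ∈ V X ((fun x => k * x + h) '' Y) := by
  obtain ⟨F, hF, rfl⟩ := hc
  let τ : J × Bool → J × Bool := fun i =>
    (⟨(k * i.1.1.1, k * i.1.1.2 + h), mul_pos hk i.1.2⟩, i.2)
  have e : ∀ i q, pt (τ i).1 (k * q + h) = pt i.1 q := fun i q => by
    have := i.1.2
    simp only [pt, τ]; field_simp; ring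
  refine ⟨F.mapDomain τ, fun q => ?_, ?_⟩
  · obtain ⟨p, rfl⟩ : ∃ p, q = k * p + h := ⟨(q - h) / k, by field_simp; ring⟩
    have h1 : ev X (k * p + h) (F.mapDomain τ) = ev X p F := by
      simp only [ev, E, Finsupp.linearCombination_mapDomain]
      congr 2
      funext i
      have e2 : (τ i).2 = i.2 := rfl
      have e3 := e i p
      by_cases h1 : pt i.1 p ∈ Zs <;> by_cases h2 : pt i.1 p ∈ X <;>
        simp [ch, e2, e3, h1, h2]
    rw [h1]
    refine le_trans ?_ (hF p)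
    by_cases hp : p ∈ Y
    · simp [hp, indicator_apply_le']
    · rw [indicator_of_notMem, indicator_of_notMem hp]
      rintro ⟨y, hy, e⟩
      have : y = p := mul_left_cancel₀ hk.ne' (add_right_cancel e)
      exact hp (this ▸ hy)
  · simp only [cost, Finsupp.linearCombination_mapDomain]
    simp only [Finsupp.linearCombination_apply, Finsupp.sum, smul_eq_mul, Finset.sum_div]
    refine Finset.sum_congr rfl fun i _ => ?_
    simp only [Function.comp, τ]
    push_cast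
    ring

theorem result : ∃ μ : Set ℤ → ℝ, IsUQD μ ∧ (∀ X Y, X ⊆ Y → μ X ≤ μ Y) ∧
    ∃ X, μ X + μ Xᶜ = 1 ∧ ∃ a, 0 ≤ a ∧ a ≤ μ X ∧
      ∀ Y ⊆ X, μ Y + μ Yᶜ = 1 → μ Y ≠ a := by
  obtain ⟨X, hX⟩ := exGen
  have hZ : ∀ Y : Set ℤ, (Int.cast '' Y : Set ℚ) ⊆ Zs := fun Y => image_subset_range _ _
  have hne : ∀ Y : Set ℤ, (V X (Int.cast '' Y)).Nonempty := fun Y => ⟨1, one_mem X (hZ Y)⟩
  set μ : Set ℤ → ℝ := fun Y => sInf (V X (Int.cast '' Y)) with hμ
  have hle : ∀ {Y c}, c ∈ V X (Int.cast '' Y) → μ Y ≤ c := fun h => csInf_le (bdd hX _) h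
  have hsub : ∀ Y Z, μ (Y ∪ Z) ≤ μ Y + μ Z := fun Y Z => by
    rw [← sub_le_iff_le_add]
    refine le_csInf (hne Y) ?_
    rintro _ ⟨F, hF, rfl⟩
    rw [sub_le_comm]
    refine le_csInf (hne Z) ?_
    rintro _ ⟨G, hG, rfl⟩
    rw [sub_le_iff_le_add', ← map_add]
    refine hle ⟨F + G, fun q => ?_, rfl⟩
    rw [map_add, image_union]
    have := hF q
    have := hG q
    have := ind0 (Int.cast '' Y) q
    have := ind0 (Int.cast '' Z) q
    refine indicator_apply_le' ?_ fun _ => by linarith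
    rintro (h | h) <;> simp only [indicator_of_mem h] at * <;> linarith
  have h1 : μ univ = 1 := by
    refine le_antisymm (hle (one_mem X (hZ _))) (le_csInf (hne _) ?_)
    rintro _ ⟨F, hF, rfl⟩
    obtain ⟨-, -, h⟩ := low hX (F - Finsupp.single (j0, false) 1) fun q => by
      rw [map_sub, evZ, sub_nonneg]; simpa [Zs] using hF q
    rw [map_sub, cZ] at h
    linarith [abs_nonneg ((F - Finsupp.single (j0, false) 1 : J × Bool →₀ ℝ) (j0, true))]
  have hX1 : (Int.cast '' (Int.cast ⁻¹' X : Set ℤ) : Set ℚ) = X := image_preimage_eq_of_subset hX.1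
  have hc : ∀ (Y : Set ℤ) q, (Int.cast '' Yᶜ : Set ℚ).indicator (1 : ℚ → ℝ) q =
      Zs.indicator 1 q - (Int.cast '' Y : Set ℚ).indicator 1 q := fun Y q => by
    by_cases h : q ∈ Zs
    · obtain ⟨z, rfl⟩ := h
      by_cases hz : z ∈ Y <;> simp [Zs, hz]
    · rw [indicator_of_notMem h, indicator_of_notMem fun h' => h (hZ _ h'),
        indicator_of_notMem fun h' => h (hZ _ h'), sub_zero]
  have a1 : μ (Int.cast ⁻¹' X) ≤ 1 / 2 := hle ⟨_, fun q => by rw [evX hX, hX1], cX.symm⟩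
  have a2 : μ (Int.cast ⁻¹' X)ᶜ ≤ 1 / 2 := hle
    ⟨Finsupp.single (j0, false) 1 - Finsupp.single (j0, true) 1, fun q => by
      rw [map_sub, evZ, evX hX, hc, hX1], by rw [map_sub, cZ, cX]; norm_num⟩
  have a3 := hsub (Int.cast ⁻¹' X) (Int.cast ⁻¹' X)ᶜ
  rw [union_compl_self, h1] at a3
  refine ⟨μ, ⟨h1, hsub, fun Y k h hk _ => ?_, fun Y => hle (one_mem X (hZ _))⟩,
    fun Y Z h => le_csInf (hne Z) ?_, Int.cast ⁻¹' X, by linarith, 1 / 4, by norm_num,
    by linarith, fun Y hY hd ha => ?_⟩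
  · have hk' : (0 : ℚ) < k := by exact_mod_cast hk
    have hk2 : (0 : ℝ) < k := by exact_mod_cast hk
    have e : (Int.cast '' ((fun x : ℤ => k * x + h) '' Y) : Set ℚ) =
        (fun x : ℚ => k * x + h) '' (Int.cast '' Y) := by
      rw [image_image, image_image]; simp
    apply le_antisymm
    · rw [le_div_iff₀ hk2]
      refine le_csInf (hne _) fun c hc => ?_
      rw [← le_div_iff₀ hk2]
      exact hle (e ▸ V_aff X _ k h hk' hc)
    · refine le_csInf (hne _) fun c hc => ?_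
      have := V_aff X _ (k : ℚ)⁻¹ (-h / k) (inv_pos.2 hk') hc
      rw [e, image_image] at this
      have e2 : (fun x : ℚ => (k : ℚ)⁻¹ * (k * x + h) + -h / k) = id := by
        funext x; simp only [id]; field_simp; ring
      rw [e2, image_id] at this
      rw [div_le_iff₀ hk2]
      simpa using hle this
  · rintro _ ⟨F, hF, rfl⟩
    exact hle ⟨F, fun q => (indicator_le_indicator_of_subset (image_mono h) (by simp) q).trans
      (hF q), rfl⟩
  · obtain ⟨_, ⟨F, hF, rfl⟩, b1⟩ := exists_lt_of_csInf_lt (hne Y)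
      (show μ Y < 1 / 4 + 1 / 40 by linarith)
    obtain ⟨_, ⟨G, hG, rfl⟩, b2⟩ := exists_lt_of_csInf_lt (hne Yᶜ)
      (show μ Yᶜ < 3 / 4 + 1 / 40 by linarith)
    obtain ⟨m, b3, b4⟩ := low hX (F + G - Finsupp.single (j0, false) 1) fun q => by
      have := hF q
      have := hG q
      rw [hc] at this
      rw [map_sub, map_add, evZ]; linarith
    obtain ⟨-, -, b5⟩ := low hX F fun q => (ind0 _ q).trans (hF q)
    obtain ⟨-, -, b6⟩ := low hX (G - Finsupp.single (j0, false) 1 + Finsupp.single (j0, true) 1)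
      fun q => by
        have h2 := hG q
        have h3 : (Int.cast '' Y : Set ℚ).indicator (1 : ℚ → ℝ) q ≤ X.indicator 1 q :=
          indicator_le_indicator_of_subset (image_subset_iff.2 hY) (by simp) q
        rw [hc] at h2
        rw [map_add, map_sub, evZ, evX hX]; linarith
    have b7 : ∀ t : Finset J, (0 ≤ E m (ch t) F ∧ E m (ch t) F ≤ 1 / 10) ∨
        (1 ≤ E m (ch t) F ∧ E m (ch t) F ≤ 11 / 10) := fun t => by
      obtain ⟨x, hx, e1, e2⟩ := realize hX F G t m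
      have hx' : x ∈ Zs := hx.2 ⟨m, rfl⟩
      have h2 := hF x
      have h3 := hG x
      have h4 := b3 t
      have h5 : E m (ch t) (Finsupp.single (j0, false) 1) = 1 := by
        have : (m : ℚ) ∈ Zs := ⟨m, rfl⟩
        simp [E, pt0, this]
      rw [hc, indicator_of_mem hx'] at h3
      simp only [map_sub, map_add, cZ, h5] at h4
      rw [e1] at h2
      rw [e2] at h3
      by_cases h : x ∈ (Int.cast '' Y : Set ℚ)
      · simp only [indicator_of_mem h, Pi.one_apply] at h2 h3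
        right; constructor <;> linarith
      · simp only [indicator_of_notMem h, Pi.one_apply] at h2 h3
        left; constructor <;> linarith
    have b8 := flip F ∅ (by simp) m
    have b9 := b7 {j0}
    rw [Finset.coe_singleton, ← insert_empty_eq, ← Finset.coe_empty] at b9
    simp only [map_sub, map_add, cZ, cX, Finsupp.add_apply, Finsupp.sub_apply,
      Finsupp.single_eq_same, ne_eq, Prod.mk.injEq, true_and, Bool.true_eq_false,
      not_false_eq_true, Finsupp.single_eq_of_ne, abs_le] at b4 b5 b6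
    rcases b7 ∅ with h | h <;> rcases b9 with h' | h' <;>
      linarith [h.1, h.2, h'.1, h'.2, b4.1, b4.2, b5.1, b5.2, b6.1, b6.2]

end Pool.Agent.Results.MP_52e7c8_nt.NoDarboux
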